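import Pool.Agent.H29.RT.Targets

/-!
# Module RVF: the energy of a root is regularly varying
-/

set_option autoImplicit false

open Complex MeasureTheory Set Filter Topology

namespace Pool.Agent.H13.RT

open Pool.Agent.H25.DL Pool.Agent.H25.DP Pool.Agent.H25.MZ Pool.Agent.H23.GLH
open Pool.Agent.H29.RT

theorem pf_RVF (h1 : T_GRP) (h2 : T_KRV) (h3 : T_EUL) (h4 : T_ACM) (h5 : T_RFM) : T_RVF := by
  intro F m α hm hp hq hα hM
  have hr : ∀ l, (rf F m l).r = 1 := by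
    rintro (x | x)
    · exact hp x.1
    · exact hq x.1
  obtain ⟨hmul, hprime⟩ := h5 F m hm
  obtain ⟨ha1, hamul, hap⟩ := h4 _ (rf F m) hmul
  set b : ℕ → ℝ := fun k => ‖ac (rf F m) k‖ ^ 2 with hb
  have hb0 : ∀ k, 0 ≤ b k := fun k => by positivity
  have hb1 : b 1 = 1 := by simp [hb, ha1]
  have hbm : ∀ a c : ℕ, Nat.Coprime a c → b (a * c) = b a * b c := by
    intro a c hac
    simp only [hb, hamul a c hac, norm_mul, mul_pow]
  have hbe : ∀ ε : ℝ, 0 < ε → ∃ C : ℝ, ∀ k : ℕ, 1 ≤ k → b k ≤ C * (k : ℝ) ^ ε := by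
    intro ε hε
    obtain ⟨-, -, -, h⟩ := h1 _ (rf F m) 1 hr one_pos
    obtain ⟨C, hC, hCk⟩ := h (ε / 2) (by positivity)
    refine ⟨C ^ 2, fun k hk => ?_⟩
    have h6 := (hCk k hk).1
    have h7 : (k : ℝ) ^ ε = ((k : ℝ) ^ (ε / 2)) ^ 2 := by
      rw [← Real.rpow_natCast, ← Real.rpow_mul (Nat.cast_nonneg k)]
      congr 1
      push_cast
      ring
    rw [h7, ← mul_pow]
    exact pow_le_pow_left₀ (norm_nonneg _) h6 2
  have hMb : Mean b α := by
    intro s hs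
    refine (hM s hs).congr fun L => ?_
    refine tsum_congr fun p => ?_
    congr 1
    simp only [hb]
    rw [hap p p.2, hprime p p.2]
  obtain ⟨hs1, hs2⟩ := h3 b α hb0 hb1 hbm hbe hMb
  intro x hx
  exact h2 b α hα hb0 (by rw [hb1]; exact one_pos) hs1 hs2 x hx

end Pool.Agent.H13.RT
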